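import Mathlib
import Pool.Agent.H520R2.Sun

/-!
# Patterns with many representations after a small perturbation

`α` is a strictly increasing sequence with `α i ≤ C (i + 1) ^ h`. Every set of `≫ I` indices in
`[I, 3 I)` contains either a cluster of `2 K` elements, or a sunflower of `K` sets of `h` indices
with sums in one short window; both give numbers with at least `K` representations as sums of `h`
elements after a suitable small perturbation.
-/

set_option autoImplicit false

open Finset

namespace Pool.Agent.Y939.RP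

/-- the number of representations of `n` as a sum of `h` elements of `A`, up to the order -/
noncomputable def rep (A : Set ℕ) (h n : ℕ) : ℕ :=
  {s : Multiset ℕ | Multiset.card s = h ∧ (∀ a ∈ s, a ∈ A) ∧ s.sum = n}.ncard

theorem rep_finite (A : Set ℕ) (h n : ℕ) :
    {s : Multiset ℕ | Multiset.card s = h ∧ (∀ a ∈ s, a ∈ A) ∧ s.sum = n}.Finite := by
  refine (Set.finite_Iic (h • Multiset.range (n + 1))).subset ?_
  rintro s ⟨h1, -, h3⟩
  rw [Set.mem_Iic, Multiset.le_iff_count]
  intro a
  by_cases ha : a ∈ s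
  · have h4 : a ≤ n := h3 ▸ Multiset.single_le_sum (fun _ _ => Nat.zero_le _) a ha
    rw [Multiset.count_nsmul, Multiset.count_eq_one_of_mem (Multiset.nodup_range _)
      (Multiset.mem_range.2 (by omega)), mul_one, ← h1]
    exact Multiset.count_le_card a s
  · rw [Multiset.count_eq_zero_of_notMem ha]
    exact Nat.zero_le _

theorem le_rep {A : Set ℕ} {h n K : ℕ} {ι : Type*} (G : Finset ι) (hG : K ≤ G.card)
    (f : ι → Multiset ℕ) (hinj : Set.InjOn f G) (h1 : ∀ i ∈ G, Multiset.card (f i) = h)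
    (h2 : ∀ i ∈ G, ∀ a ∈ f i, a ∈ A) (h3 : ∀ i ∈ G, (f i).sum = n) : K ≤ rep A h n := by
  classical
  refine hG.trans ?_
  rw [← Finset.card_image_of_injOn hinj, ← Set.ncard_coe_finset]
  refine Set.ncard_le_ncard ?_ (rep_finite A h n)
  intro s hs
  rw [Finset.mem_coe, mem_image] at hs
  obtain ⟨i, hi, rfl⟩ := hs
  exact ⟨h1 i hi, h2 i hi, h3 i hi⟩

/-- a cluster of `2 K` elements -/
theorem cluster (α : ℕ → ℕ) (h K L : ℕ) (h2 : 2 ≤ h) (hK : 1 ≤ K) (e : ℕ → ℕ)
    (hmono : ∀ j j', j ≤ j' → j' < 2 * K → α (e j) ≤ α (e j'))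
    (he : ∀ j j', j < j' → j' < 2 * K → e j < e j')
    (hL : α (e (2 * K - 1)) ≤ α (e 0) + L) :
    ∃ ζ : ℕ → ℕ, ∃ n, α (e 0) ≤ n ∧ (∀ j < 2 * K, ζ (e j) ≤ L + 2 * K) ∧
      ∀ z : ℕ → ℕ, (∀ j < 2 * K, z (e j) = ζ (e j)) →
        K ≤ rep (Set.range fun i => α i + z i) h n := by
  classical
  set X := α (e (2 * K - 1)) with hX
  have hXj : ∀ j < 2 * K, α (e j) ≤ X := fun j hj => hmono j _ (by omega) (by omega)
  have hfil : ∀ j < 2 * K, ((range (2 * K)).filter (fun l => e l < e j)).card = j := by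
    intro j hj
    have : (range (2 * K)).filter (fun l => e l < e j) = range j := by
      ext l
      rw [mem_filter, mem_range, mem_range]
      constructor
      · rintro ⟨h3, h4⟩
        by_contra h5
        rcases (not_lt.1 h5).lt_or_eq with h6 | h6
        · exact absurd (he j l h6 h3) (by omega)
        · rw [h6] at h4; exact lt_irrefl _ h4
      · intro h3
        exact ⟨by omega, he l j h3 hj⟩
    rw [this, card_range]
  set ζ : ℕ → ℕ := fun i => X + 1 + ((range (2 * K)).filter (fun l => e l < i)).card - α i with hζ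
  have hζe : ∀ j < 2 * K, ζ (e j) + α (e j) = X + 1 + j := by
    intro j hj
    have := hXj j hj
    simp only [hζ, hfil j hj]
    omega
  have h0 : ∀ j < 2 * K, α (e 0) ≤ α (e j) := fun j hj => hmono 0 j (Nat.zero_le _) hj
  refine ⟨ζ, 2 * X + 2 * K + 1 + (h - 2) * (X + 1), ?_, ?_, ?_⟩
  · have := hXj 0 (by omega)
    have h3 : 0 ≤ (h - 2) * (X + 1) := Nat.zero_le _
    omega
  · intro j hj
    have h3 := hζe j hj
    have h4 := h0 j hj
    omega
  · intro z hz
    have hv : ∀ j < 2 * K, α (e j) + z (e j) = X + 1 + j := by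
      intro j hj
      rw [hz j hj, add_comm, hζe j hj]
    have hmem : ∀ j < 2 * K, X + 1 + j ∈ Set.range fun i => α i + z i := fun j hj =>
      ⟨e j, hv j hj⟩
    refine le_rep (range K) (by rw [card_range])
      (fun j => ({X + 1 + j, X + 1 + (2 * K - 1 - j)} : Multiset ℕ) +
        Multiset.replicate (h - 2) (X + 1 + 0)) ?_ ?_ ?_ ?_
    · intro j hj j' hj' hjj
      rw [Finset.mem_coe, mem_range] at hj hj'
      have h4 : ({X + 1 + j, X + 1 + (2 * K - 1 - j)} : Multiset ℕ) =
          {X + 1 + j', X + 1 + (2 * K - 1 - j')} := add_right_cancel hjj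
      have h5 : X + 1 + j ∈ ({X + 1 + j', X + 1 + (2 * K - 1 - j')} : Multiset ℕ) := by
        rw [← h4]
        exact Multiset.mem_cons_self _ _
      rw [Multiset.insert_eq_cons, Multiset.mem_cons, Multiset.mem_singleton] at h5
      omega
    · intro j hj
      rw [Multiset.card_add, Multiset.card_replicate, Multiset.insert_eq_cons,
        Multiset.card_cons, Multiset.card_singleton]
      omega
    · intro j hj a ha
      rw [mem_range] at hj
      rw [Multiset.mem_add, Multiset.insert_eq_cons, Multiset.mem_cons,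
        Multiset.mem_singleton, Multiset.mem_replicate] at ha
      rcases ha with (rfl | rfl) | ⟨_, rfl⟩
      · exact hmem _ (by omega)
      · exact hmem _ (by omega)
      · exact hmem _ (by omega)
    · intro j hj
      rw [mem_range] at hj
      rw [Multiset.sum_add, Multiset.sum_replicate, Multiset.insert_eq_cons, Multiset.sum_cons,
        Multiset.sum_singleton, smul_eq_mul, add_zero]
      omega

/-- a sunflower of `K` sets of indices whose sums are in one window -/
theorem flower (α : ℕ → ℕ) (h K L : ℕ) (hK : 2 ≤ K) (V : Finset ℕ)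
    (hV : ∀ i ∈ V, ∀ j ∈ V, i < j → α i + L < α j) (w : ℕ) (F : Finset (Finset ℕ))
    (hF : ∀ B ∈ F, B ⊆ V ∧ B.card = h ∧ w ≤ ∑ i ∈ B, α i ∧ ∑ i ∈ B, α i ≤ w + L)
    (hc : K ^ h * h.factorial < F.card) :
    ∃ J ⊆ V, J.card ≤ h * K ∧ ∃ ζ : ℕ → ℕ, (∀ i, ζ i ≤ L) ∧
      ∀ z : ℕ → ℕ, (∀ i ∈ J, z i = ζ i) →
        K ≤ rep (Set.range fun i => α i + z i) h (w + L) := by
  classical
  obtain ⟨P, hPF, hPc, Z, hZ1, hZ2⟩ := Pool.Agent.H520R2.sunflower K (by omega) h F
    (fun B hB => (hF B hB).2.1.le) hc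
  have hne : ∀ B ∈ P, ∃ i ∈ B, i ∉ Z := by
    intro B hB
    by_contra hcon
    push Not at hcon
    have hBZ : B = Z := (show B ⊆ Z from hcon).antisymm (hZ1 B hB)
    obtain ⟨B', hB', hne⟩ := exists_mem_ne (by omega : 1 < P.card) B
    have h3 : B ⊆ B' := hBZ ▸ hZ1 B' hB'
    exact hne (eq_of_subset_of_card_le h3
      (by rw [(hF B (hPF hB)).2.1, (hF B' (hPF hB')).2.1])).symm
  have hne' : ∀ B : Finset ℕ, ∃ i, B ∈ P → i ∈ B ∧ i ∉ Z := by
    intro B
    by_cases hB : B ∈ P
    · obtain ⟨i, h1, h2⟩ := hne B hB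
      exact ⟨i, fun _ => ⟨h1, h2⟩⟩
    · exact ⟨0, fun h => absurd h hB⟩
  choose pick hpick using hne'
  have huniq : ∀ B ∈ P, ∀ B' ∈ P, pick B' ∈ B → B = B' := by
    intro B hB B' hB' h3
    by_contra h4
    exact (hpick B' hB').2 (hZ2 B hB B' hB' h4 (mem_inter.2 ⟨h3, (hpick B' hB').1⟩))
  set s : Finset ℕ → ℕ := fun B => ∑ i ∈ B, α i with hs
  set ζ : ℕ → ℕ := fun i => ∑ B ∈ P, if pick B = i then w + L - s B else 0 with hζ
  have hζL : ∀ i, ζ i ≤ L := by
    intro i
    by_cases hi : ∃ B ∈ P, pick B = i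
    · obtain ⟨B, hB, hBi⟩ := hi
      simp only [hζ]
      rw [sum_eq_single B, if_pos hBi]
      · have := (hF B (hPF hB)).2.2.1
        simp only [hs]
        omega
      · intro B' hB' hne
        rw [if_neg]
        intro h3
        exact hne (huniq B' hB' B hB (by rw [hBi, ← h3]; exact (hpick B' hB').1))
      · intro h3
        exact absurd hB h3
    · push Not at hi
      simp only [hζ]
      rw [sum_eq_zero]
      · exact Nat.zero_le _
      · intro B hB
        rw [if_neg (hi B hB)]
  have hζB : ∀ B ∈ P, ∑ i ∈ B, ζ i = w + L - s B := by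
    intro B hB
    simp only [hζ]
    rw [sum_comm, sum_eq_single B]
    · rw [sum_ite_eq, if_pos (hpick B hB).1]
    · intro B' hB' hne
      rw [sum_ite_eq, if_neg]
      intro h3
      exact hne (huniq B hB B' hB' h3).symm
    · intro h3
      exact absurd hB h3
  have hsB : ∀ B ∈ P, s B ≤ w + L := fun B hB => (hF B (hPF hB)).2.2.2
  refine ⟨P.biUnion id, ?_, ?_, ζ, hζL, ?_⟩
  · intro i hi
    rw [mem_biUnion] at hi
    obtain ⟨B, hB, hi⟩ := hi
    exact (hF B (hPF hB)).1 hi
  · refine (card_biUnion_le).trans ?_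
    calc ∑ B ∈ P, (id B).card ≤ ∑ B ∈ P, h := sum_le_sum fun B hB => (hF B (hPF hB)).2.1.le
      _ = h * K := by rw [sum_const, hPc, smul_eq_mul, mul_comm]
  · intro z hz
    have hzB : ∀ B ∈ P, ∀ i ∈ B, z i = ζ i := fun B hB i hi =>
      hz i (mem_biUnion.2 ⟨B, hB, hi⟩)
    have hvinj : ∀ B ∈ P, ∀ B' ∈ P, ∀ i ∈ B, ∀ j ∈ B', α i + z i = α j + z j → i = j := by
      intro B hB B' hB' i hi j hj hij
      have h3 := hzB B hB i hi
      have h4 := hzB B' hB' j hj
      have h5 := hζL i
      have h6 := hζL j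
      have h7 := (hF B (hPF hB)).1 hi
      have h8 := (hF B' (hPF hB')).1 hj
      rcases lt_trichotomy i j with h9 | h9 | h9
      · have := hV i h7 j h8 h9
        omega
      · exact h9
      · have := hV j h8 i h7 h9
        omega
    refine le_rep P hPc.ge (fun B => B.val.map fun i => α i + z i) ?_ ?_ ?_ ?_
    · intro B hB B' hB' hBB
      rw [Finset.mem_coe] at hB hB'
      have hsub : ∀ C ∈ P, ∀ D ∈ P, (C.val.map fun i => α i + z i) =
          (D.val.map fun i => α i + z i) → C ⊆ D := by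
        intro C hC D hD hCD i hi
        have h3 : α i + z i ∈ C.val.map fun i => α i + z i := Multiset.mem_map_of_mem _ hi
        rw [hCD, Multiset.mem_map] at h3
        obtain ⟨j, hj, hj2⟩ := h3
        have := hvinj C hC D hD i hi j hj hj2.symm
        rw [this]
        exact hj
      exact (hsub B hB B' hB' hBB).antisymm (hsub B' hB' B hB hBB.symm)
    · intro B hB
      rw [Multiset.card_map]
      exact (hF B (hPF hB)).2.1
    · intro B hB a ha
      rw [Multiset.mem_map] at ha
      obtain ⟨i, _, rfl⟩ := ha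
      exact ⟨i, rfl⟩
    · intro B hB
      have h3 : (B.val.map fun i => α i + z i).sum = ∑ i ∈ B, (α i + z i) := rfl
      rw [h3, sum_add_distrib, sum_congr rfl (hzB B hB), hζB B hB]
      have := hsB B hB
      simp only [hs] at this ⊢
      omega

end Pool.Agent.Y939.RP
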