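import Pool.Agent.Y939.RP.Comb

/-!
# Many disjoint patterns
-/

set_option autoImplicit false

open Finset

namespace Pool.Agent.Y939.RP

/-- the length of the window -/
def Lw (h C K : ℕ) : ℕ :=
  2 * (h * (C + 1) * (12 * h * K) ^ h) * (K ^ h * h.factorial) * h.factorial

/-- the bound for the perturbations -/
def Mw (h C K : ℕ) : ℕ := Lw h C K + 2 * K

/-- from here on the patterns exist -/
def xw (h K : ℕ) : ℕ := 2 * (K ^ h * h.factorial) * h.factorial + 1

theorem key (h C K x : ℕ) (h2 : 2 ≤ h) (hK : 2 ≤ K) (hx : xw h K ≤ x) (α : ℕ → ℕ)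
    (hα : StrictMono α) (hC : ∀ i, α i ≤ C * (i + 1) ^ h) (U : Finset ℕ)
    (hU : ∀ i ∈ U, 4 * h * K * x ≤ i ∧ i < 12 * h * K * x) (hUc : 4 * h * K * x ≤ U.card) :
    ∃ J ⊆ U, J.card ≤ h * K ∧ ∃ ζ : ℕ → ℕ, ∃ n, 4 * h * K * x ≤ n ∧
      (∀ i ∈ J, ζ i ≤ Mw h C K) ∧
      ∀ z : ℕ → ℕ, (∀ i ∈ J, z i = ζ i) → K ≤ rep (Set.range fun i => α i + z i) h n := by
  classical
  have hx1 : 1 ≤ x := le_trans (Nat.le_add_left _ _) hx
  set L := Lw h C K with hL
  -- the enumeration of `U`
  set e : ℕ → ℕ := fun k => Nat.nth (fun i => i ∈ U) k with he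
  have hfin : {i | i ∈ U}.Finite := U.finite_toSet
  have hcard : ∀ h : {i | i ∈ U}.Finite, h.toFinset.card = U.card := fun h => by
    congr 1
    ext i
    simp
  have heU : ∀ k < U.card, e k ∈ U := fun k hk =>
    Nat.nth_mem_of_lt_card hfin (lt_of_lt_of_eq hk (hcard _).symm)
  have hemono : ∀ k l, k < l → l < U.card → e k < e l := by
    intro k l hkl hl
    exact Nat.nth_strictMonoOn hfin (lt_of_lt_of_eq (hkl.trans hl) (hcard _).symm)
      (lt_of_lt_of_eq hl (hcard _).symm) hkl
  have hKU : 2 * K ≤ U.card := by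
    refine le_trans ?_ hUc
    calc 2 * K = 2 * K * 1 := by ring
      _ ≤ (4 * h * K) * x := Nat.mul_le_mul (by nlinarith) hx1
  by_cases hcl : ∃ j, j + 2 * K ≤ U.card ∧ α (e (j + (2 * K - 1))) ≤ α (e j) + L
  · -- a cluster
    obtain ⟨j, hj, hjL⟩ := hcl
    have hm : ∀ a b, a < b → b < 2 * K → e (j + a) < e (j + b) := fun a b hab hb =>
      hemono _ _ (by omega) (by omega)
    obtain ⟨ζ, n, hn, hζ, hz⟩ := cluster α h K L h2 (by omega) (fun a => e (j + a))
      (fun a b hab hb => by
        rcases hab.lt_or_eq with h3 | h3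
        · exact (hα (hm a b h3 hb)).le
        · rw [h3]) hm hjL
    have hJU : (range (2 * K)).image (fun a => e (j + a)) ⊆ U := by
      intro i hi
      rw [mem_image] at hi
      obtain ⟨a, ha, rfl⟩ := hi
      rw [mem_range] at ha
      exact heU _ (by omega)
    refine ⟨(range (2 * K)).image fun a => e (j + a), hJU, ?_, ζ, n, ?_, ?_, ?_⟩
    · refine card_image_le.trans ?_
      rw [card_range]
      exact Nat.mul_le_mul_right K h2
    · refine le_trans ?_ hn
      exact (hU _ (heU _ (by omega))).1.trans hα.le_apply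
    · intro i hi
      rw [mem_image] at hi
      obtain ⟨a, ha, rfl⟩ := hi
      exact hζ a (mem_range.1 ha)
    · intro z hzz
      exact hz z fun a ha => hzz _ (mem_image.2 ⟨a, mem_range.2 ha, rfl⟩)
  · -- a spaced subset
    push Not at hcl
    set v := 2 * h * x with hv
    have hvU : 2 * K * v ≤ U.card := by
      refine le_trans (le_of_eq ?_) hUc
      rw [hv]; ring
    set V := (range v).image fun a => e (2 * K * a) with hV
    have hidx : ∀ a < v, 2 * K * a + 2 * K ≤ U.card := by
      intro a ha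
      refine le_trans ?_ hvU
      calc 2 * K * a + 2 * K = 2 * K * (a + 1) := by ring
        _ ≤ 2 * K * v := Nat.mul_le_mul_left _ ha
    have hVU : V ⊆ U := by
      intro i hi
      rw [hV, mem_image] at hi
      obtain ⟨a, ha, rfl⟩ := hi
      have := hidx a (mem_range.1 ha)
      exact heU _ (by omega)
    have hstep : ∀ a b, a < b → b < v → α (e (2 * K * a)) + L < α (e (2 * K * b)) := by
      intro a b hab hb
      have h3 := hidx a (by omega)
      have h4 := hcl (2 * K * a) h3
      refine h4.trans (hα (hemono _ _ ?_ ?_))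
      · have : 2 * K * (a + 1) ≤ 2 * K * b := Nat.mul_le_mul_left _ hab
        have h5 : 2 * K * (a + 1) = 2 * K * a + 2 * K := by ring
        omega
      · have := hidx b hb
        omega
    have hVc : V.card = v := by
      rw [hV, card_image_of_injOn, card_range]
      intro a ha b hb hab
      rw [Finset.mem_coe, mem_range] at ha hb
      have hab' : e (2 * K * a) = e (2 * K * b) := hab
      rcases lt_trichotomy a b with h3 | h3 | h3
      · have := hstep a b h3 hb
        rw [hab'] at this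
        omega
      · exact h3
      · have := hstep b a h3 ha
        rw [hab'] at this
        omega
    have hVsep : ∀ i ∈ V, ∀ j ∈ V, i < j → α i + L < α j := by
      intro i hi j hj hij
      rw [hV, mem_image] at hi hj
      obtain ⟨a, ha, rfl⟩ := hi
      obtain ⟨b, hb, rfl⟩ := hj
      rw [mem_range] at ha hb
      refine hstep a b ?_ hb
      by_contra h3
      rcases (not_lt.1 h3).lt_or_eq with h4 | h4
      · have := hemono (2 * K * b) (2 * K * a) (Nat.mul_lt_mul_of_pos_left h4 (by omega))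
          (by have := hidx a ha; omega)
        omega
      · rw [h4] at hij
        exact lt_irrefl _ hij
    -- windows
    set S := K ^ h * h.factorial with hS
    set N' := h * (C + 1) * (12 * h * K) ^ h with hN'
    have hLS : L = 2 * N' * S * h.factorial := rfl
    have hsum : ∀ B ∈ V.powersetCard h, ∑ i ∈ B, α i ≤ N' * x ^ h := by
      intro B hB
      rw [mem_powersetCard] at hB
      calc ∑ i ∈ B, α i ≤ ∑ i ∈ B, (C + 1) * (12 * h * K * x) ^ h := by
            refine sum_le_sum fun i hi => (hC i).trans ?_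
            have := (hU i (hVU (hB.1 hi))).2
            exact Nat.mul_le_mul (Nat.le_succ C) (Nat.pow_le_pow_left this h)
        _ = N' * x ^ h := by
            rw [sum_const, hB.2, smul_eq_mul, hN', mul_pow]
            ring
    have hmaps : ∀ B ∈ V.powersetCard h, (∑ i ∈ B, α i) / (L + 1) ∈
        range (N' * x ^ h / (L + 1) + 1) := by
      intro B hB
      rw [mem_range, Nat.lt_succ_iff]
      exact Nat.div_le_div_right (hsum B hB)
    have hfac : 0 < h.factorial := Nat.factorial_pos h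
    have hS0 : 0 < S := Nat.mul_pos (Nat.pow_pos (by omega)) hfac
    have hN0 : 0 < N' := by
      rw [hN']
      have : 0 < 12 * h * K := by nlinarith
      positivity
    have hxh : x ≤ x ^ h := Nat.le_self_pow (by omega) x
    have hcount : (range (N' * x ^ h / (L + 1) + 1)).card * S < (V.powersetCard h).card := by
      rw [card_range, card_powersetCard, hVc]
      set q := N' * x ^ h / (L + 1) with hq
      have h3 : q * (L + 1) ≤ N' * x ^ h := Nat.div_mul_le_self _ _
      have h4 : 2 * (q * (S * h.factorial)) ≤ x ^ h := by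
        have h5 : N' * (2 * (q * (S * h.factorial))) ≤ N' * x ^ h := by
          calc N' * (2 * (q * (S * h.factorial))) = q * L := by rw [hLS]; ring
            _ ≤ q * (L + 1) := Nat.mul_le_mul_left _ (Nat.le_succ L)
            _ ≤ _ := h3
        exact Nat.le_of_mul_le_mul_left h5 hN0
      have h5 : 2 * (S * h.factorial) < x ^ h := by
        have : 2 * S * h.factorial + 1 ≤ x := hx
        have h6 : 2 * S * h.factorial = 2 * (S * h.factorial) := by ring
        omega
      have h6 : x ^ h ≤ h.factorial * v.choose h := by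
        have h7 : (v + 1 - h) ^ h ≤ h.factorial * v.choose h := by
          rw [← Nat.descFactorial_eq_factorial_mul_choose]
          exact v.pow_sub_le_descFactorial h
        refine le_trans (Nat.pow_le_pow_left ?_ h) h7
        have h10 : h * x + h * x = v := by rw [hv]; ring
        have h8 : h * 1 ≤ h * x := Nat.mul_le_mul_left _ hx1
        have h9 : 1 * x ≤ h * x := Nat.mul_le_mul_right _ (by omega)
        omega
      have h7 : h.factorial * ((q + 1) * S) < h.factorial * v.choose h := by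
        refine lt_of_lt_of_le ?_ h6
        have h8 : h.factorial * ((q + 1) * S) = q * (S * h.factorial) + S * h.factorial := by ring
        omega
      exact Nat.lt_of_mul_lt_mul_left h7
    obtain ⟨y, hy, hyc⟩ := exists_lt_card_fiber_of_mul_lt_card_of_maps_to hmaps hcount
    set F := (V.powersetCard h).filter (fun B => (∑ i ∈ B, α i) / (L + 1) = y) with hF
    have hFp : ∀ B ∈ F, B ⊆ V ∧ B.card = h ∧ (L + 1) * y ≤ ∑ i ∈ B, α i ∧
        ∑ i ∈ B, α i ≤ (L + 1) * y + L := by
      intro B hB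
      rw [hF, mem_filter, mem_powersetCard] at hB
      obtain ⟨⟨h3, h4⟩, h5⟩ := hB
      have h6 := Nat.div_add_mod (∑ i ∈ B, α i) (L + 1)
      have h7 : (∑ i ∈ B, α i) % (L + 1) < L + 1 := Nat.mod_lt _ (Nat.succ_pos L)
      rw [h5] at h6
      refine ⟨h3, h4, by omega, by omega⟩
    obtain ⟨J, hJV, hJc, ζ, hζ, hz⟩ := flower α h K L hK V hVsep _ F hFp hyc
    refine ⟨J, hJV.trans hVU, hJc, ζ, (L + 1) * y + L, ?_, ?_, hz⟩
    · have hFne : F.Nonempty := by
        rw [← card_pos]
        exact lt_of_le_of_lt (Nat.zero_le _) hyc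
      obtain ⟨B, hB⟩ := hFne
      obtain ⟨h3, h4, _, h5⟩ := hFp B hB
      have hBne : B.Nonempty := by
        rw [← card_pos, h4]
        omega
      obtain ⟨i, hi⟩ := hBne
      calc 4 * h * K * x ≤ i := (hU i (hVU (h3 hi))).1
        _ ≤ α i := hα.le_apply
        _ ≤ ∑ i ∈ B, α i := single_le_sum (f := α) (fun _ _ => Nat.zero_le _) hi
        _ ≤ _ := h5
    · intro i _
      exact (hζ i).trans (Nat.le_add_right _ _)

/-- many disjoint patterns -/
theorem patterns (h C K x : ℕ) (h2 : 2 ≤ h) (hK : 2 ≤ K) (hx : xw h K ≤ x) (α : ℕ → ℕ)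
    (hα : StrictMono α) (hC : ∀ i, α i ≤ C * (i + 1) ^ h) :
    ∃ (J : ℕ → Finset ℕ) (ζ : ℕ → ℕ → ℕ) (n : ℕ → ℕ),
      (∀ t < x, x ≤ n t ∧ (J t).card ≤ h * K ∧ (∀ i ∈ J t, x ≤ i ∧ i < 12 * h * K * x) ∧
        (∀ i ∈ J t, ζ t i ≤ Mw h C K) ∧
        ∀ z : ℕ → ℕ, (∀ i ∈ J t, z i = ζ t i) →
          K ≤ rep (Set.range fun i => α i + z i) h (n t)) ∧
      ∀ s t, s < t → t < x → Disjoint (J s) (J t) := by
  classical
  have hk : ∀ U : Finset ℕ, ∃ (J : Finset ℕ) (ζ : ℕ → ℕ) (n : ℕ),
      ((∀ i ∈ U, 4 * h * K * x ≤ i ∧ i < 12 * h * K * x) → 4 * h * K * x ≤ U.card →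
        J ⊆ U ∧ J.card ≤ h * K ∧ 4 * h * K * x ≤ n ∧ (∀ i ∈ J, ζ i ≤ Mw h C K) ∧
        ∀ z : ℕ → ℕ, (∀ i ∈ J, z i = ζ i) → K ≤ rep (Set.range fun i => α i + z i) h n) := by
    intro U
    by_cases hU : (∀ i ∈ U, 4 * h * K * x ≤ i ∧ i < 12 * h * K * x) ∧ 4 * h * K * x ≤ U.card
    · obtain ⟨J, h3, h4, ζ, n, h5, h6, h7⟩ := key h C K x h2 hK hx α hα hC U hU.1 hU.2
      exact ⟨J, ζ, n, fun _ _ => ⟨h3, h4, h5, h6, h7⟩⟩
    · exact ⟨∅, fun _ => 0, 0, fun h3 h4 => absurd ⟨h3, h4⟩ hU⟩
  choose Jf ζf nf hf using hk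
  set W := Ico (4 * h * K * x) (12 * h * K * x) with hW
  have hrec : ∃ u : ℕ → Finset ℕ, u 0 = ∅ ∧ ∀ t, u (t + 1) = u t ∪ Jf (W \ u t) :=
    ⟨fun t => Nat.rec ∅ (fun _ s => s ∪ Jf (W \ s)) t, rfl, fun t => rfl⟩
  obtain ⟨u, hu0, hu⟩ := hrec
  have hWm : ∀ t, ∀ i ∈ W \ u t, 4 * h * K * x ≤ i ∧ i < 12 * h * K * x := fun t i hi =>
    mem_Ico.1 (mem_sdiff.1 hi).1
  have hWc : W.card = 2 * (4 * h * K * x) := by
    rw [hW, Nat.card_Ico]
    have : 12 * h * K * x = 3 * (4 * h * K * x) := by ring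
    omega
  have hcard : ∀ t ≤ x, (u t).card ≤ t * (h * K) ∧ 4 * h * K * x ≤ (W \ u t).card := by
    intro t
    induction t with
    | zero =>
      intro _
      rw [hu0, sdiff_empty, card_empty, hWc]
      omega
    | succ t ih =>
      intro ht
      obtain ⟨h3, h4⟩ := ih (by omega)
      have h5 : (u (t + 1)).card ≤ (t + 1) * (h * K) := by
        rw [hu]
        refine (card_union_le _ _).trans ?_
        have := (hf _ (hWm t) h4).2.1
        calc (u t).card + (Jf (W \ u t)).card ≤ t * (h * K) + h * K := add_le_add h3 this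
          _ = (t + 1) * (h * K) := by ring
      refine ⟨h5, ?_⟩
      have h6 := le_card_sdiff (u (t + 1)) W
      have h7 : (t + 1) * (h * K) ≤ x * (h * K) := Nat.mul_le_mul_right _ ht
      have h8 : 4 * h * K * x = 4 * (x * (h * K)) := by ring
      omega
  have hsub : ∀ s t, s < t → Jf (W \ u s) ⊆ u t := by
    intro s t hst
    induction t, hst using Nat.le_induction with
    | base => rw [hu]; exact subset_union_right
    | succ t _ ih => rw [hu]; exact ih.trans subset_union_left
  have h4x : x ≤ 4 * h * K * x := by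
    have : 1 * x ≤ (4 * h * K) * x := Nat.mul_le_mul_right _ (by nlinarith)
    omega
  refine ⟨fun t => Jf (W \ u t), fun t => ζf (W \ u t), fun t => nf (W \ u t), ?_, ?_⟩
  · intro t ht
    obtain ⟨h3, h4, h5, h6, h7⟩ := hf _ (hWm t) (hcard t ht.le).2
    refine ⟨h4x.trans h5, h4, fun i hi => ?_, h6, h7⟩
    have := hWm t i (h3 hi)
    exact ⟨h4x.trans this.1, this.2⟩
  · intro s t hst ht
    have h3 := (hf _ (hWm t) (hcard t ht.le).2).1
    rw [disjoint_left]
    intro i hi hi'
    exact (mem_sdiff.1 (h3 hi')).2 (hsub s t hst hi)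

end Pool.Agent.Y939.RP
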