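import Pool.Agent.Y939.RP.Key

/-!
# Random perturbations of sets with `a_n ≤ C n ^ h`
-/

set_option autoImplicit false

open Finset Filter MeasureTheory ProbabilityTheory

namespace Pool.Agent.Y939.RP

variable {Ω : Type} [MeasurableSpace Ω] {μ : Measure Ω}

/-- finitely many disjoint patterns: the probability that none of them occurs -/
theorem no_pattern [IsProbabilityMeasure μ] (Z : ℕ → Ω → ℕ) (hZ : ∀ i, Measurable (Z i))
    (hind : iIndepFun Z μ) (T : ℕ) (J : ℕ → Finset ℕ) (ζ : ℕ → ℕ → ℕ)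
    (hJ : ∀ s t, s < t → t < T → Disjoint (J s) (J t)) (p : ℝ)
    (hp : ∀ t < T, p ≤ ∏ i ∈ J t, μ.real (Z i ⁻¹' {ζ t i})) :
    μ.real {ω | ∀ t < T, ¬ ∀ i ∈ J t, Z i ω = ζ t i} ≤ Real.exp (-(p * T)) := by
  classical
  have huniq : ∀ s t : Fin T, ∀ i, i ∈ J s → i ∈ J t → s = t := by
    intro s t i hs ht
    rcases lt_trichotomy s t with h | h | h
    · exact absurd ht (disjoint_left.1 (hJ s t h t.2) hs)
    · exact h
    · exact absurd hs (disjoint_left.1 (hJ t s h s.2) ht)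
  set η : ℕ → ℕ := fun i => if h : ∃ t : Fin T, i ∈ J t then ζ h.choose i else 0 with hη
  have hηeq : ∀ t : Fin T, ∀ i ∈ J t, η i = ζ t i := by
    intro t i hi
    have h : ∃ t : Fin T, i ∈ J t := ⟨t, hi⟩
    rw [hη]
    simp only
    rw [dif_pos h, huniq _ _ i h.choose_spec hi]
  set E : Fin T → Set Ω := fun t => ⋂ i ∈ J t, Z i ⁻¹' {η i} with hE
  have hmeas1 : ∀ i, MeasurableSet (Z i ⁻¹' {η i}) := fun i => hZ i (measurableSet_singleton _)
  have hEm : ∀ t, MeasurableSet (E t) := fun t =>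
    Finset.measurableSet_biInter _ fun i _ => hmeas1 i
  have hprod : ∀ S : Finset ℕ, μ (⋂ i ∈ S, Z i ⁻¹' {η i}) = ∏ i ∈ S, μ (Z i ⁻¹' {η i}) := by
    intro S
    exact hind.measure_inter_preimage_eq_mul S (sets := fun i => {η i})
      fun i _ => measurableSet_singleton _
  have hindE : iIndepSet E μ := by
    rw [iIndepSet_iff_meas_biInter hEm]
    intro T'
    have h1 : ⋂ t ∈ T', E t = ⋂ i ∈ T'.biUnion fun t => J t, Z i ⁻¹' {η i} := by
      ext ω
      simp only [hE, Set.mem_iInter, mem_biUnion]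
      constructor
      · rintro h i ⟨t, ht, hi⟩
        exact h t ht i hi
      · intro h t ht i hi
        exact h i ⟨t, ht, hi⟩
    rw [h1, hprod, prod_biUnion]
    · refine prod_congr rfl fun t _ => ?_
      rw [hE]
      simp only
      rw [hprod]
    · intro s _ t _ hst
      rw [Function.onFun, disjoint_left]
      intro i hs ht
      exact hst (huniq s t i hs ht)
  have hcompl : μ (⋂ t ∈ (univ : Finset (Fin T)), (E t)ᶜ) = ∏ t, μ (E t)ᶜ := by
    refine iIndep.meas_biInter hindE fun t _ => ?_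
    exact (MeasurableSpace.measurableSet_generateFrom (Set.mem_singleton _)).compl
  have hset : {ω | ∀ t < T, ¬ ∀ i ∈ J t, Z i ω = ζ t i} =
      ⋂ t ∈ (univ : Finset (Fin T)), (E t)ᶜ := by
    ext ω
    simp only [Set.mem_iInter, mem_univ, forall_true_left, Set.mem_compl_iff, hE,
      Set.mem_preimage, Set.mem_singleton_iff]
    constructor
    · intro h t h1
      refine h t t.2 fun i hi => ?_
      rw [h1 i hi, hηeq t i hi]
    · intro h t ht h1
      refine h ⟨t, ht⟩ fun i hi => ?_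
      rw [h1 i hi, hηeq ⟨t, ht⟩ i hi]
  have hreal : μ.real {ω | ∀ t < T, ¬ ∀ i ∈ J t, Z i ω = ζ t i} =
      ∏ t : Fin T, μ.real (E t)ᶜ := by
    rw [hset, measureReal_def, hcompl, ENNReal.toReal_prod]
    rfl
  rw [hreal]
  calc ∏ t : Fin T, μ.real (E t)ᶜ ≤ ∏ t : Fin T, Real.exp (-p) := by
        refine prod_le_prod (fun _ _ => measureReal_nonneg) fun t _ => ?_
        rw [probReal_compl_eq_one_sub (hEm t)]
        have h1 : p ≤ μ.real (E t) := by
          refine (hp t t.2).trans (le_of_eq ?_)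
          rw [hE]
          simp only
          rw [measureReal_def, hprod, ENNReal.toReal_prod]
          refine prod_congr rfl fun i hi => ?_
          rw [hηeq t i hi]
          rfl
        have h2 := Real.add_one_le_exp (-p)
        linarith
    _ = Real.exp (-(p * T)) := by
        rw [prod_const, card_univ, Fintype.card_fin, ← Real.exp_nat_mul]
        congr 1
        ring

/-- a set with `α i ≤ C (i + 1) ^ h` after a random perturbation -/
theorem perturbed [IsProbabilityMeasure μ] (Z : ℕ → Ω → ℕ) (hZ : ∀ i, Measurable (Z i))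
    (hind : iIndepFun Z μ) (α : ℕ → ℕ) (hα : StrictMono α) (h C K : ℕ) (h2 : 2 ≤ h) (hK : 2 ≤ K)
    (hC : ∀ i, α i ≤ C * (i + 1) ^ h)
    (hpr : ∀ᶠ i : ℕ in atTop, ∀ z ≤ Mw h C K,
      (i : ℝ) ^ (-(1 / (4 * (h : ℝ) * (K : ℝ)))) ≤ μ.real {ω | Z i ω = z}) :
    ∀ᵐ ω ∂μ, ∀ᶠ m : ℕ in atTop, ∃ n ≥ m, K ≤ rep (Set.range fun i => α i + Z i ω) h n := by
  obtain ⟨i₁, hi₁⟩ := eventually_atTop.1 hpr
  have hh' : (2 : ℝ) ≤ h := by exact_mod_cast h2
  have hK' : (2 : ℝ) ≤ K := by exact_mod_cast hK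
  have hx : ∀ x : ℕ, ∃ (J : ℕ → Finset ℕ) (ζ : ℕ → ℕ → ℕ) (n : ℕ → ℕ), xw h K ≤ x →
      (∀ t < x, x ≤ n t ∧ (J t).card ≤ h * K ∧ (∀ i ∈ J t, x ≤ i ∧ i < 12 * h * K * x) ∧
        (∀ i ∈ J t, ζ t i ≤ Mw h C K) ∧
        ∀ z : ℕ → ℕ, (∀ i ∈ J t, z i = ζ t i) →
          K ≤ rep (Set.range fun i => α i + z i) h (n t)) ∧
      ∀ s t, s < t → t < x → Disjoint (J s) (J t) := by
    intro x
    by_cases hx : xw h K ≤ x
    · obtain ⟨J, ζ, n, h⟩ := patterns h C K x h2 hK hx α hα hC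
      exact ⟨J, ζ, n, fun _ => h⟩
    · exact ⟨fun _ => ∅, fun _ _ => 0, fun _ => 0, fun h => absurd h hx⟩
  choose J ζ n hJ using hx
  set bad : ℕ → Set Ω := fun x => {ω | ∀ t < x, ¬ ∀ i ∈ J x t, Z i ω = ζ x t i} with hbad
  set i₀ := max (max i₁ (xw h K)) (12 * h * K) with hi₀
  have hbound : ∀ x, i₀ ≤ x → μ (bad x) ≤ ENNReal.ofReal (24 / (x : ℝ) ^ 2) := by
    intro x hx
    have hx1 : i₁ ≤ x := (le_max_left _ _).trans ((le_max_left _ _).trans hx)
    have hx2 : xw h K ≤ x := (le_max_right _ _).trans ((le_max_left _ _).trans hx)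
    have hx3 : 12 * h * K ≤ x := (le_max_right _ _).trans hx
    have hxpos : 0 < x := lt_of_lt_of_le (by positivity) hx3
    have hx0 : (0 : ℝ) < x := by exact_mod_cast hxpos
    have hx1' : (1 : ℝ) ≤ x := by exact_mod_cast hxpos
    have hx3' : 12 * (h : ℝ) * K ≤ x := by exact_mod_cast hx3
    obtain ⟨hJ1, hJ2⟩ := hJ x hx2
    have hexp : -(1 / (4 * (h : ℝ) * (K : ℝ))) ≤ 0 := by
      rw [Left.neg_nonpos_iff]; positivity
    have hbase : (0 : ℝ) < x * x := by positivity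
    have hp : ∀ t < x, ((x : ℝ) * x) ^ (-(1 / 4) : ℝ) ≤
        ∏ i ∈ J x t, μ.real (Z i ⁻¹' {ζ x t i}) := by
      intro t ht
      obtain ⟨_, h1, h3, h4, _⟩ := hJ1 t ht
      have h5 : ∀ i ∈ J x t, ((x : ℝ) * x) ^ (-(1 / (4 * (h : ℝ) * (K : ℝ)))) ≤
          μ.real (Z i ⁻¹' {ζ x t i}) := by
        intro i hi
        refine le_trans ?_ (hi₁ i (hx1.trans (h3 i hi).1) _ (h4 i hi))
        have h6 : (0 : ℝ) < i := by
          have : 0 < i := lt_of_lt_of_le hxpos (h3 i hi).1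
          exact_mod_cast this
        refine Real.rpow_le_rpow_of_nonpos h6 ?_ hexp
        have h7 : (i : ℝ) ≤ 12 * (h : ℝ) * K * x := by exact_mod_cast (h3 i hi).2.le
        exact h7.trans (mul_le_mul_of_nonneg_right hx3' hx0.le)
      have h6 : ((x : ℝ) * x) ^ (-(1 / (4 * (h : ℝ) * (K : ℝ)))) ≤ 1 :=
        Real.rpow_le_one_of_one_le_of_nonpos (by nlinarith) hexp
      have h7 : (0 : ℝ) ≤ ((x : ℝ) * x) ^ (-(1 / (4 * (h : ℝ) * (K : ℝ)))) := by positivity
      calc ((x : ℝ) * x) ^ (-(1 / 4) : ℝ)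
          = (((x : ℝ) * x) ^ (-(1 / (4 * (h : ℝ) * (K : ℝ))))) ^ (h * K) := by
            rw [← Real.rpow_natCast, ← Real.rpow_mul hbase.le]
            congr 1
            push_cast
            field_simp
        _ ≤ (((x : ℝ) * x) ^ (-(1 / (4 * (h : ℝ) * (K : ℝ))))) ^ (J x t).card :=
            pow_le_pow_of_le_one h7 h6 h1
        _ = ∏ i ∈ J x t, ((x : ℝ) * x) ^ (-(1 / (4 * (h : ℝ) * (K : ℝ)))) := by rw [prod_const]
        _ ≤ _ := prod_le_prod (fun _ _ => h7) h5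
    have h1 := no_pattern Z hZ hind x (J x) (ζ x) hJ2 _ hp
    -- the exponent
    have h3 : ((x : ℝ) * x) ^ (-(1 / 4) : ℝ) * x = Real.sqrt x := by
      have h4 : ((x : ℝ) * x) = (x : ℝ) ^ (2 : ℝ) := by
        rw [Real.rpow_two]; ring
      rw [h4, ← Real.rpow_mul hx0.le, Real.sqrt_eq_rpow]
      nth_rewrite 2 [← Real.rpow_one (x : ℝ)]
      rw [← Real.rpow_add hx0]
      norm_num
    rw [h3] at h1
    have h4 : Real.exp (-Real.sqrt x) ≤ 24 / (x : ℝ) ^ 2 := by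
      have h5 := Real.pow_div_factorial_le_exp (x := Real.sqrt x) (Real.sqrt_nonneg _) 4
      have h6 : Real.sqrt (x : ℝ) ^ 4 = (x : ℝ) ^ 2 := by
        calc Real.sqrt (x : ℝ) ^ 4 = (Real.sqrt (x : ℝ) ^ 2) ^ 2 := by ring
          _ = (x : ℝ) ^ 2 := by rw [Real.sq_sqrt hx0.le]
      rw [h6] at h5
      have h7 : ((Nat.factorial 4 : ℕ) : ℝ) = 24 := by norm_num [Nat.factorial]
      rw [h7] at h5
      rw [Real.exp_neg, inv_eq_one_div, div_le_div_iff₀ (Real.exp_pos _) (by positivity)]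
      rw [div_le_iff₀ (by norm_num)] at h5
      linarith
    calc μ (bad x) = ENNReal.ofReal (μ.real (bad x)) := by rw [ofReal_measureReal]
      _ ≤ ENNReal.ofReal (24 / (x : ℝ) ^ 2) := ENNReal.ofReal_le_ofReal (h1.trans h4)
  -- Borel-Cantelli
  have hsum : ∑' j, μ (bad (i₀ + j)) ≠ ⊤ := by
    have h1 : ∀ j, μ (bad (i₀ + j)) ≤ ENNReal.ofReal (24 * (1 / ((j + i₀ : ℕ) : ℝ) ^ 2)) := by
      intro j
      refine (hbound (i₀ + j) (Nat.le_add_right _ _)).trans (le_of_eq ?_)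
      rw [add_comm i₀ j]
      congr 1
      ring
    have h2 : Summable fun j : ℕ => 24 * (1 / ((j + i₀ : ℕ) : ℝ) ^ 2) := by
      refine Summable.mul_left 24 ?_
      exact (summable_nat_add_iff (f := fun n : ℕ => 1 / ((n : ℕ) : ℝ) ^ 2) i₀).2
        (Real.summable_one_div_nat_pow.2 (by norm_num))
    refine ne_top_of_le_ne_top ?_ (ENNReal.tsum_le_tsum h1)
    rw [← ENNReal.ofReal_tsum_of_nonneg (fun j => by positivity) h2]
    exact ENNReal.ofReal_ne_top
  filter_upwards [ae_eventually_notMem hsum] with ω hω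
  obtain ⟨j₀, hj₀⟩ := eventually_atTop.1 hω
  refine eventually_atTop.2 ⟨i₀ + j₀, fun m hm => ?_⟩
  have h1 := hj₀ (m - i₀) (by omega)
  have h2 : i₀ + (m - i₀) = m := by omega
  rw [h2, hbad] at h1
  simp only [Set.mem_ofPred_eq] at h1
  push Not at h1
  obtain ⟨t, ht, h3⟩ := h1
  have hm8 : xw h K ≤ m := by
    have h4 := le_max_left (max i₁ (xw h K)) (12 * h * K)
    have h5 := le_max_right i₁ (xw h K)
    omega
  obtain ⟨h4, _, _, _, h5⟩ := (hJ m hm8).1 t ht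
  exact ⟨n m t, h4, h5 (fun i => Z i ω) h3⟩

theorem perturbed_unbounded [IsProbabilityMeasure μ] (Z : ℕ → Ω → ℕ) (hZ : ∀ i, Measurable (Z i))
    (hind : iIndepFun Z μ) (α : ℕ → ℕ) (hα : StrictMono α) (h C : ℕ) (h2 : 2 ≤ h)
    (hC : ∀ i, α i ≤ C * (i + 1) ^ h)
    (hpr : ∀ z : ℕ, ∀ ε : ℝ, 0 < ε → ∀ᶠ i : ℕ in atTop,
      (i : ℝ) ^ (-ε) ≤ μ.real {ω | Z i ω = z}) :
    ∀ᵐ ω ∂μ, ∀ K : ℕ, ∀ m : ℕ, ∃ n ≥ m, K ≤ rep (Set.range fun i => α i + Z i ω) h n := by
  have main : ∀ K : ℕ, ∀ᵐ ω ∂μ, ∀ᶠ m : ℕ in atTop, ∃ n ≥ m,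
      K + 2 ≤ rep (Set.range fun i => α i + Z i ω) h n := by
    intro K
    refine perturbed Z hZ hind α hα h C (K + 2) h2 (by omega) hC ?_
    have hpos : (0 : ℝ) < 1 / (4 * (h : ℝ) * ((K + 2 : ℕ) : ℝ)) := by
      have : (2 : ℝ) ≤ h := by exact_mod_cast h2
      have h3 : (0 : ℝ) < ((K + 2 : ℕ) : ℝ) := by exact_mod_cast Nat.succ_pos _
      positivity
    have : ∀ᶠ i : ℕ in atTop, ∀ z ∈ range (Mw h C (K + 2) + 1),
        (i : ℝ) ^ (-(1 / (4 * (h : ℝ) * ((K + 2 : ℕ) : ℝ)))) ≤ μ.real {ω | Z i ω = z} :=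
      (Finset.eventually_all _).2 fun z _ => hpr z _ hpos
    filter_upwards [this] with i hi z hz
    exact hi z (mem_range.2 (by omega))
  filter_upwards [ae_all_iff.2 main] with ω hω K m
  obtain ⟨m₀, hm₀⟩ := eventually_atTop.1 (hω K)
  obtain ⟨n, hn, hn'⟩ := hm₀ (max m m₀) (le_max_right _ _)
  exact ⟨n, (le_max_left _ _).trans hn, by omega⟩

/-- asymptotic bases of order `h` satisfy the growth condition -/
theorem basis_growth (A : Set ℕ) (hA : A.Infinite) (h n₀ : ℕ) (h1 : 1 ≤ h)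
    (hb : ∀ n, n₀ ≤ n → 1 ≤ rep A h n) (i : ℕ) :
    Nat.nth (fun a => a ∈ A) i ≤ (n₀ + 1) * (i + 1) ^ h := by
  classical
  set x := Nat.nth (fun a => a ∈ A) i with hx
  have hin : {a | a ∈ A}.Infinite := hA
  set E := (range i).image (fun j => Nat.nth (fun a => a ∈ A) j) with hE
  have hEc : E.card ≤ i := by
    refine card_image_le.trans ?_
    rw [card_range]
  have hEA : ∀ a, a ∈ A → a < x → a ∈ E := by
    intro a ha hax
    rw [hE, mem_image]
    refine ⟨Nat.count (fun a => a ∈ A) a, ?_, Nat.nth_count ha⟩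
    rw [mem_range]
    rw [hx] at hax
    have h6 : Nat.nth (fun a => a ∈ A) (Nat.count (fun a => a ∈ A) a) <
        Nat.nth (fun a => a ∈ A) i := by
      rw [Nat.nth_count ha]; exact hax
    exact (Nat.nth_lt_nth hin).1 h6
  -- every `n₀ ≤ n < x` is a sum of `h` elements of `E`
  have h3 : Ico n₀ x ⊆ (Fintype.piFinset fun _ : Fin h => E).image fun f => ∑ j, f j := by
    intro n hn
    rw [mem_Ico] at hn
    have h4 := hb n hn.1
    have h5 : {s : Multiset ℕ | Multiset.card s = h ∧ (∀ a ∈ s, a ∈ A) ∧ s.sum = n}.Nonempty := by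
      rw [Set.nonempty_iff_ne_empty]
      intro h6
      rw [rep, h6, Set.ncard_empty] at h4
      omega
    obtain ⟨s, hs1, hs2, hs3⟩ := h5
    obtain ⟨l, rfl⟩ : ∃ l : List ℕ, (l : Multiset ℕ) = s := ⟨s.toList, s.coe_toList⟩
    rw [Multiset.coe_card] at hs1
    rw [Multiset.sum_coe] at hs3
    subst hs1
    rw [mem_image]
    refine ⟨fun j => l.get j, ?_, ?_⟩
    · rw [Fintype.mem_piFinset]
      intro j
      have h6 : l.get j ∈ l := List.get_mem l j
      have h7 : l.get j ≤ l.sum := List.single_le_sum (fun _ _ => Nat.zero_le _) _ h6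
      exact hEA _ (hs2 _ (Multiset.mem_coe.2 h6)) (by omega)
    · rw [← hs3]
      exact (List.sum_ofFn (f := fun j => l.get j)).symm.trans (by rw [List.ofFn_get])
  have h4 := (card_le_card h3).trans card_image_le
  rw [Nat.card_Ico, Fintype.card_piFinset_const] at h4
  have h5 : E.card ^ h ≤ i ^ h := Nat.pow_le_pow_left hEc h
  have h6 : i ^ h ≤ (i + 1) ^ h := Nat.pow_le_pow_left (Nat.le_succ i) h
  have h7 : 1 ≤ (i + 1) ^ h := Nat.one_le_pow _ _ (Nat.succ_pos i)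
  have h8 : n₀ * 1 ≤ n₀ * (i + 1) ^ h := Nat.mul_le_mul_left _ h7
  have h9 : (n₀ + 1) * (i + 1) ^ h = n₀ * (i + 1) ^ h + (i + 1) ^ h := by ring
  rw [h9]
  omega

end Pool.Agent.Y939.RP
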